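import Pool.Agent.X216.LC.KL

open Finset PowerSeries

namespace Pool.Agent.X216.LC

open Pool.Agent.X216.BH

lemma norm7 (c1 c2 c3 c4 c5 c6 c7 : ℝ) (h1 : 0 ≤ c1) (h2 : 0 ≤ c2) (h3 : 0 ≤ c3) (h4 : 0 ≤ c4)
    (h5 : 0 ≤ c5) (h6 : 0 ≤ c6) (h7 : 0 ≤ c7) (e1 e2 e3 e4 e5 e6 e7 : ℂ) :
    ‖(c1 : ℂ) * e1 + c2 * e2 + c3 * e3 + c4 * e4 - c5 * e5 - c6 * e6 - c7 * e7‖ ≤
      c1 * ‖e1‖ + c2 * ‖e2‖ + c3 * ‖e3‖ + c4 * ‖e4‖ + c5 * ‖e5‖ + c6 * ‖e6‖ + c7 * ‖e7‖ := by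
  have hn : ∀ (c : ℝ), 0 ≤ c → ∀ e : ℂ, ‖(c : ℂ) * e‖ ≤ c * ‖e‖ := by
    intro c hc e
    rw [norm_mul, Complex.norm_real, Real.norm_of_nonneg hc]
  exact (norm_sub_le _ _).trans (add_le_add ((norm_sub_le _ _).trans (add_le_add
    ((norm_sub_le _ _).trans (add_le_add ((norm_add_le _ _).trans (add_le_add
    ((norm_add_le _ _).trans (add_le_add ((norm_add_le _ _).trans (add_le_add
    (hn _ h1 _) (hn _ h2 _))) (hn _ h3 _))) (hn _ h4 _))) (hn _ h5 _))) (hn _ h6 _))) (hn _ h7 _))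

/-- quadratic combination of the `y_k` -/
noncomputable def Ee (y0 y1 y2 y3 y4 y5 y6 : ℂ) (s0 s1 s2 s3 : ℝ) : ℂ :=
  ((s0 ^ 2 : ℝ) : ℂ) * y0 + ((2 * s0 * s1 : ℝ) : ℂ) * y1
        + ((2 * s0 * s2 + s1 ^ 2 : ℝ) : ℂ) * y2 + ((2 * s0 * s3 + 2 * s1 * s2 : ℝ) : ℂ) * y3
        + ((2 * s1 * s3 + s2 ^ 2 : ℝ) : ℂ) * y4 + ((2 * s2 * s3 : ℝ) : ℂ) * y5
        + ((s3 ^ 2 : ℝ) : ℂ) * y6

lemma cert_abs (y0 y1 y2 y3 y4 y5 y6 : ℂ) (n g11 g12 g13 g14 g22 g23 g24 g33 g34 g44 : ℝ)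
    (hE : ∀ s0 s1 s2 s3 : ℝ, ‖Ee y0 y1 y2 y3 y4 y5 y6 s0 s1 s2 s3‖ ≤
      (n * s0 ^ 2 + s1 ^ 2 * g11 + s2 ^ 2 * g22 + s3 ^ 2 * g33 + 2 * s1 * s2 * g12
        + 2 * s1 * s3 * g13 + 2 * s2 * s3 * g23)
      - (s0 ^ 2 * g11 + s1 ^ 2 * g22 + s2 ^ 2 * g33 + s3 ^ 2 * g44 + 2 * s0 * s1 * g12
        + 2 * s0 * s2 * g13 + 2 * s0 * s3 * g14 + 2 * s1 * s2 * g23 + 2 * s1 * s3 * g24
        + 2 * s2 * s3 * g34))
    (hP : ∀ s1 s2 s3 s4 : ℝ, 0 ≤ s1 ^ 2 * g11 + s2 ^ 2 * g22 + s3 ^ 2 * g33 + s4 ^ 2 * g44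
        + 2 * s1 * s2 * g12 + 2 * s1 * s3 * g13 + 2 * s1 * s4 * g14 + 2 * s2 * s3 * g23
        + 2 * s2 * s4 * g24 + 2 * s3 * s4 * g34) :
    ‖y0 + y1 + (1 / 6) * y3 + (1 / 120) * y5‖ + 1 / 4000 * g11 ≤ n := by
  have a1 := hE 1 (1 / 2) (7 / 60) (1 / 30)
  have a2 := hE 0 1 (3 / 2) (-1 / 5)
  have a3 := hE 0 0 1 (391 / 296)
  have a4 := hE 0 0 0 1
  have b1 := hE 0 1 (4 / 17) (1 / 17)
  have b2 := hE 0 0 1 (11 / 27)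
  have r1 := hP 1 (2200 / 1197) (1000 / 1197) (400 / 1197)
  have r2 := hP 0 1 (-2105 / 18112) (-1003 / 2264)
  have r3 := hP 0 0 1 (607432 / 418155)
  have r4 := hP 0 0 0 1
  have key : y0 + y1 + (1 / 6) * y3 + (1 / 120) * y5 =
      ((1 : ℝ) : ℂ) * Ee y0 y1 y2 y3 y4 y5 y6 1 (1 / 2) (7 / 60) (1 / 30)
      + ((1 / 12 : ℝ) : ℂ) * Ee y0 y1 y2 y3 y4 y5 y6 0 1 (3 / 2) (-1 / 5)
      + ((37 / 450 : ℝ) : ℂ) * Ee y0 y1 y2 y3 y4 y5 y6 0 0 1 (391 / 296)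
      + ((6661 / 355200 : ℝ) : ℂ) * Ee y0 y1 y2 y3 y4 y5 y6 0 0 0 1
      - ((17 / 30 : ℝ) : ℂ) * Ee y0 y1 y2 y3 y4 y5 y6 0 1 (4 / 17) (1 / 17)
      - ((63 / 340 : ℝ) : ℂ) * Ee y0 y1 y2 y3 y4 y5 y6 0 0 1 (11 / 27)
      - ((217 / 1620 : ℝ) : ℂ) * Ee y0 y1 y2 y3 y4 y5 y6 0 0 0 1 := by
    unfold Ee
    push_cast
    ring
  have hn := norm7 1 (1 / 12) (37 / 450) (6661 / 355200) (17 / 30) (63 / 340) (217 / 1620)
    (by norm_num) (by norm_num) (by norm_num) (by norm_num) (by norm_num) (by norm_num)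
    (by norm_num) (Ee y0 y1 y2 y3 y4 y5 y6 1 (1 / 2) (7 / 60) (1 / 30))
    (Ee y0 y1 y2 y3 y4 y5 y6 0 1 (3 / 2) (-1 / 5)) (Ee y0 y1 y2 y3 y4 y5 y6 0 0 1 (391 / 296))
    (Ee y0 y1 y2 y3 y4 y5 y6 0 0 0 1) (Ee y0 y1 y2 y3 y4 y5 y6 0 1 (4 / 17) (1 / 17))
    (Ee y0 y1 y2 y3 y4 y5 y6 0 0 1 (11 / 27)) (Ee y0 y1 y2 y3 y4 y5 y6 0 0 0 1)
  rw [← key] at hn
  linarith

/-- Gram entries -/
noncomputable def G (n : ℕ) (P Q : PowerSeries ℂ) : ℝ :=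
  ∑ k ∈ range n, ((n : ℝ) - k) * ((PowerSeries.coeff k P).re * (PowerSeries.coeff k Q).re
    + (PowerSeries.coeff k P).im * (PowerSeries.coeff k Q).im)

lemma V_gen (n : ℕ) (P0 P1 P2 P3 P4 : PowerSeries ℂ) (s0 s1 s2 s3 s4 : ℝ) :
    W n (PowerSeries.C (s0 : ℂ) * P0 + PowerSeries.C (s1 : ℂ) * P1 + PowerSeries.C (s2 : ℂ) * P2
      + PowerSeries.C (s3 : ℂ) * P3 + PowerSeries.C (s4 : ℂ) * P4)
    = s0 ^ 2 * G n P0 P0 + s1 ^ 2 * G n P1 P1 + s2 ^ 2 * G n P2 P2 + s3 ^ 2 * G n P3 P3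
      + s4 ^ 2 * G n P4 P4 + 2 * s0 * s1 * G n P0 P1 + 2 * s0 * s2 * G n P0 P2
      + 2 * s0 * s3 * G n P0 P3 + 2 * s0 * s4 * G n P0 P4 + 2 * s1 * s2 * G n P1 P2
      + 2 * s1 * s3 * G n P1 P3 + 2 * s1 * s4 * G n P1 P4 + 2 * s2 * s3 * G n P2 P3
      + 2 * s2 * s4 * G n P2 P4 + 2 * s3 * s4 * G n P3 P4 := by
  unfold W G
  simp only [Finset.mul_sum, ← Finset.sum_add_distrib]
  apply Finset.sum_congr rfl
  intro k _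
  simp only [map_add, PowerSeries.coeff_C_mul]
  rw [← Complex.normSq_eq_norm_sq, Complex.normSq_apply]
  simp only [Complex.add_re, Complex.add_im, Complex.re_ofReal_mul, Complex.im_ofReal_mul]
  ring

lemma G_zero_zero {n : ℕ} (hn : 1 ≤ n) : G n 1 1 = n := by
  unfold G
  rw [Finset.sum_eq_single 0]
  · simp
  · intro k _ hk
    simp [PowerSeries.coeff_one, hk]
  · intro h
    exact absurd (Finset.mem_range.mpr (by omega)) h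

lemma G_zero_pos {C : PowerSeries ℂ} (h0 : PowerSeries.coeff 0 C = 0) (n j : ℕ) :
    G n 1 (C ^ (j + 1)) = 0 := by
  unfold G
  apply Finset.sum_eq_zero
  intro k _
  by_cases hk : k = 0
  · subst hk
    have h1 : PowerSeries.coeff 0 (C ^ (j + 1)) = 0 := by
      rw [PowerSeries.coeff_zero_eq_constantCoeff_apply, map_pow]
      rw [PowerSeries.coeff_zero_eq_constantCoeff_apply] at h0
      rw [h0, zero_pow (Nat.succ_ne_zero j)]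
    rw [h1]
    simp
  · simp [PowerSeries.coeff_one, hk]

/-- the coefficients `y_k` -/
noncomputable def yy (n : ℕ) (C : PowerSeries ℂ) (k : ℕ) : ℂ := PowerSeries.coeff n (eul C * C ^ k)

/-- polynomial in `C` with real coefficients -/
noncomputable def pol (C : PowerSeries ℂ) (s0 s1 s2 s3 s4 : ℝ) : PowerSeries ℂ :=
  PowerSeries.C (s0 : ℂ) * 1 + PowerSeries.C (s1 : ℂ) * C ^ (0 + 1)
    + PowerSeries.C (s2 : ℂ) * C ^ (1 + 1)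
    + PowerSeries.C (s3 : ℂ) * C ^ (2 + 1) + PowerSeries.C (s4 : ℂ) * C ^ (3 + 1)

lemma E_eq (C : PowerSeries ℂ) (n : ℕ) (s0 s1 s2 s3 : ℝ) :
    PowerSeries.coeff n (eul C * (pol C s0 s1 s2 s3 0 * pol C s0 s1 s2 s3 0))
    = Ee (yy n C 0) (yy n C 1) (yy n C 2) (yy n C 3) (yy n C 4) (yy n C 5) (yy n C 6)
        s0 s1 s2 s3 := by
  unfold yy Ee
  simp only [← PowerSeries.coeff_C_mul, ← map_add]
  congr 1
  unfold pol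
  push_cast
  simp only [map_add, map_mul, map_pow, map_zero, map_ofNat]
  ring

lemma mul_pol (C : PowerSeries ℂ) (s0 s1 s2 s3 : ℝ) :
    C * pol C s0 s1 s2 s3 0 = pol C 0 s0 s1 s2 s3 := by
  unfold pol
  simp only [Complex.ofReal_zero, map_zero]
  ring

lemma yy_bound {C : PowerSeries ℂ} (hC : Contr C) (n k : ℕ) :
    ‖yy n C (k + 2)‖ ≤ W n C := by
  have h := KL hC C (C ^ (k + 1)) n
  have h1 : ∀ j, W n (C ^ (j + 1)) ≤ W n C := by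
    intro j
    induction j with
    | zero => simp
    | succ j ih =>
      have := W_mul_le hC n (C ^ (j + 1))
      rw [← pow_succ'] at this
      exact this.trans ih
  have h2 := h1 k
  have h3 := W_nonneg n (C * C)
  have h4 := W_nonneg n (C * C ^ (k + 1))
  have h5 : yy n C (k + 2) = PowerSeries.coeff n (eul C * (C * C ^ (k + 1))) := by
    unfold yy
    congr 2
    ring
  rw [h5]
  linarith

/-- main finite inequality -/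
lemma main_fin {C : PowerSeries ℂ} (hC : Contr C) (h0 : PowerSeries.coeff 0 C = 0) {n : ℕ}
    (hn : 1 ≤ n) :
    ‖yy n C 0 + yy n C 1 + (1 / 6) * yy n C 3 + (1 / 120) * yy n C 5‖ + 1 / 4000 * W n C ≤ n := by
  have hW : W n C = G n (C ^ (0 + 1)) (C ^ (0 + 1)) := by
    unfold W G
    apply Finset.sum_congr rfl
    intro k _
    rw [← Complex.normSq_eq_norm_sq, Complex.normSq_apply]
    simp
  have hV : ∀ s0 s1 s2 s3 s4 : ℝ, W n (pol C s0 s1 s2 s3 s4) = _ := fun s0 s1 s2 s3 s4 =>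
    V_gen n 1 (C ^ (0 + 1)) (C ^ (1 + 1)) (C ^ (2 + 1)) (C ^ (3 + 1)) s0 s1 s2 s3 s4
  rw [hW]
  apply cert_abs (yy n C 0) (yy n C 1) (yy n C 2) (yy n C 3) (yy n C 4) (yy n C 5) (yy n C 6) n
    (G n (C ^ (0 + 1)) (C ^ (0 + 1))) (G n (C ^ (0 + 1)) (C ^ (1 + 1)))
    (G n (C ^ (0 + 1)) (C ^ (2 + 1))) (G n (C ^ (0 + 1)) (C ^ (3 + 1)))
    (G n (C ^ (1 + 1)) (C ^ (1 + 1))) (G n (C ^ (1 + 1)) (C ^ (2 + 1)))
    (G n (C ^ (1 + 1)) (C ^ (3 + 1))) (G n (C ^ (2 + 1)) (C ^ (2 + 1)))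
    (G n (C ^ (2 + 1)) (C ^ (3 + 1))) (G n (C ^ (3 + 1)) (C ^ (3 + 1)))
  · intro s0 s1 s2 s3
    rw [← E_eq]
    have h := KL hC (pol C s0 s1 s2 s3 0) (pol C s0 s1 s2 s3 0) n
    rw [mul_pol, hV s0 s1 s2 s3 0, hV 0 s0 s1 s2 s3, G_zero_zero hn,
      G_zero_pos h0 n 0, G_zero_pos h0 n 1, G_zero_pos h0 n 2, G_zero_pos h0 n 3] at h
    refine h.trans (le_of_eq ?_)
    ring
  · intro s1 s2 s3 s4
    have h := W_nonneg n (pol C 0 s1 s2 s3 s4)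
    rw [hV 0 s1 s2 s3 s4] at h
    refine h.trans (le_of_eq ?_)
    ring

end Pool.Agent.X216.LC
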