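import Pool.Agent.X216.BH.Quot

open Finset PowerSeries

namespace Pool.Agent.X216.LC

open Pool.Agent.X216.BH

/-- Euler derivative of a formal power series -/
noncomputable def eul (P : PowerSeries ℂ) : PowerSeries ℂ :=
  PowerSeries.mk fun n => (n : ℂ) * PowerSeries.coeff n P

lemma coeff_eul (P : PowerSeries ℂ) (n : ℕ) :
    PowerSeries.coeff n (eul P) = (n : ℂ) * PowerSeries.coeff n P := by
  simp [eul]

lemma eul_mul (P Q : PowerSeries ℂ) : eul (P * Q) = eul P * Q + P * eul Q := by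
  ext n
  rw [coeff_eul, map_add, PowerSeries.coeff_mul, PowerSeries.coeff_mul, PowerSeries.coeff_mul,
    Finset.mul_sum, ← Finset.sum_add_distrib]
  apply Finset.sum_congr rfl
  intro p hp
  have : p.1 + p.2 = n := by simpa using hp
  rw [coeff_eul, coeff_eul, ← this]
  push_cast
  ring

lemma eul_pow (P : PowerSeries ℂ) (k : ℕ) : eul (P ^ (k + 1)) = (k + 1) • (eul P * P ^ k) := by
  induction k with
  | zero => simp
  | succ k ih =>
    rw [pow_succ P (k + 1), eul_mul, ih]
    simp only [nsmul_eq_mul]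
    push_cast
    ring

/-- multiplication by `C` is a contraction on every initial segment -/
def Contr (C : PowerSeries ℂ) : Prop := ∀ (P : PowerSeries ℂ) (N : ℕ),
  ∑ k ∈ range N, ‖PowerSeries.coeff k (C * P)‖ ^ 2 ≤ ∑ k ∈ range N, ‖PowerSeries.coeff k P‖ ^ 2

lemma contr_of_isPS {C : PowerSeries ℂ} {ω : ℂ → ℂ} (h : IsPS (fun n => PowerSeries.coeff n C) ω)
    (h1 : ∀ z : ℂ, ‖z‖ < 1 → ‖ω z‖ ≤ 1) : Contr C := by
  intro P N
  have hP := isPS_trunc (fun n => PowerSeries.coeff n P) N
  have hm := h.mul hP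
  have hr := rogosinski hP hm (by
    intro z hz
    rw [norm_mul]
    exact mul_le_of_le_one_left (norm_nonneg _) (h1 z hz)) N
  have e1 : ∑ k ∈ range N, ‖PowerSeries.coeff k (C * P)‖ ^ 2 = ∑ n ∈ range N,
      ‖∑ p ∈ antidiagonal n, PowerSeries.coeff p.1 C *
        (if p.2 < N then PowerSeries.coeff p.2 P else 0)‖ ^ 2 := by
    apply Finset.sum_congr rfl
    intro n hn
    have hn' : n < N := by simpa using hn
    rw [PowerSeries.coeff_mul]
    congr 2
    apply Finset.sum_congr rfl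
    intro p hp
    have h1 : p.1 + p.2 = n := by simpa using hp
    have h2 : p.2 < N := by omega
    rw [if_pos h2]
  have e2 : ∑ n ∈ range N, ‖(if n < N then PowerSeries.coeff n P else 0)‖ ^ 2
      = ∑ k ∈ range N, ‖PowerSeries.coeff k P‖ ^ 2 := by
    apply Finset.sum_congr rfl
    intro n hn
    have hn' : n < N := by simpa using hn
    rw [if_pos hn']
  rw [e1, ← e2]
  exact hr

/-- truncation -/
noncomputable def cut (N : ℕ) (A : PowerSeries ℂ) : PowerSeries ℂ :=
  PowerSeries.mk fun k => if k < N then PowerSeries.coeff k A else 0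

/-- reflected tail -/
noncomputable def refl (N n : ℕ) (B : PowerSeries ℂ) : PowerSeries ℂ :=
  PowerSeries.mk fun k => if k < N then 0 else (starRingEnd ℂ) (PowerSeries.coeff (n - k) B)

lemma coeff_mul_cut (C A : PowerSeries ℂ) {N k : ℕ} (h : k < N) :
    PowerSeries.coeff k (C * cut N A) = PowerSeries.coeff k (C * A) := by
  rw [PowerSeries.coeff_mul, PowerSeries.coeff_mul]
  apply Finset.sum_congr rfl
  intro p hp
  have h1 : p.1 + p.2 = k := by simpa using hp
  have h2 : p.2 < N := by omega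
  rw [cut, PowerSeries.coeff_mk, if_pos h2]

lemma coeff_mul_range (P Q : PowerSeries ℂ) (n : ℕ) :
    PowerSeries.coeff n (P * Q)
      = ∑ k ∈ range (n + 1), PowerSeries.coeff k P * PowerSeries.coeff (n - k) Q := by
  rw [PowerSeries.coeff_mul]
  exact Finset.Nat.sum_antidiagonal_eq_sum_range_succ
    (fun i j => PowerSeries.coeff i P * PowerSeries.coeff j Q) n

lemma piece (C A : PowerSeries ℂ) {N1 N2 n : ℕ} (h : N1 + N2 = n + 1) :
    PowerSeries.coeff n (C * cut N1 A * refl N2 n (C * A))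
      = ((∑ k ∈ range N1, ‖PowerSeries.coeff k (C * A)‖ ^ 2 : ℝ) : ℂ) := by
  rw [coeff_mul_range, ← h, Finset.sum_range_add]
  have h2 : ∑ x ∈ range N2, PowerSeries.coeff (N1 + x) (C * cut N1 A) *
      PowerSeries.coeff (n - (N1 + x)) (refl N2 n (C * A)) = 0 := by
    apply Finset.sum_eq_zero
    intro x hx
    have hx' : x < N2 := by simpa using hx
    have : n - (N1 + x) < N2 := by omega
    rw [refl, PowerSeries.coeff_mk, if_pos this, mul_zero]
  rw [h2, add_zero]
  push_cast
  apply Finset.sum_congr rfl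
  intro k hk
  have hk' : k < N1 := by simpa using hk
  have h3 : ¬ (n - k < N2) := by omega
  have h4 : n - (n - k) = k := by omega
  rw [refl, PowerSeries.coeff_mk, if_neg h3, h4, coeff_mul_cut C A hk', Complex.mul_conj']

lemma refl_mul_refl (C P Q : PowerSeries ℂ) {N1 N2 n : ℕ} (h : N1 + N2 = n + 1) :
    PowerSeries.coeff n (C * (refl N1 n P * refl N2 n Q)) = 0 := by
  rw [PowerSeries.coeff_mul]
  apply Finset.sum_eq_zero
  intro p hp
  have h1 : p.1 + p.2 = n := by simpa using hp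
  rw [PowerSeries.coeff_mul, Finset.sum_eq_zero, mul_zero]
  intro q hq
  have h2 : q.1 + q.2 = p.2 := by simpa using hq
  by_cases h3 : q.1 < N1
  · rw [refl, PowerSeries.coeff_mk, if_pos h3, zero_mul]
  · have h4 : q.2 < N2 := by omega
    rw [refl, refl, PowerSeries.coeff_mk, PowerSeries.coeff_mk, if_pos h4, mul_zero]

lemma norm_mix (A B : PowerSeries ℂ) {N1 N2 n : ℕ} (h : N1 + N2 = n + 1) :
    ∑ k ∈ range (n + 1), ‖PowerSeries.coeff k (cut N1 A + refl N1 n B)‖ ^ 2
      = ∑ k ∈ range N1, ‖PowerSeries.coeff k A‖ ^ 2 + ∑ k ∈ range N2, ‖PowerSeries.coeff k B‖ ^ 2 := by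
  rw [← h, Finset.sum_range_add]
  congr 1
  · apply Finset.sum_congr rfl
    intro k hk
    have hk' : k < N1 := by simpa using hk
    rw [map_add, cut, refl, PowerSeries.coeff_mk, PowerSeries.coeff_mk, if_pos hk', if_pos hk',
      add_zero]
  · rw [← Finset.sum_range_reflect]
    apply Finset.sum_congr rfl
    intro k hk
    have hk' : k < N2 := by simpa using hk
    have h3 : ¬ (N1 + (N2 - 1 - k) < N1) := by omega
    have h4 : n - (N1 + (N2 - 1 - k)) = k := by omega
    rw [map_add, cut, refl, PowerSeries.coeff_mk, PowerSeries.coeff_mk, if_neg h3, if_neg h3, h4,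
      zero_add, Complex.norm_conj]

lemma re_coeff_mul_le (P Q : PowerSeries ℂ) (n : ℕ) :
    (PowerSeries.coeff n (P * Q)).re ≤ 1 / 2 * (∑ k ∈ range (n + 1), ‖PowerSeries.coeff k P‖ ^ 2
      + ∑ k ∈ range (n + 1), ‖PowerSeries.coeff k Q‖ ^ 2) := by
  rw [coeff_mul_range, ← Finset.sum_range_reflect (fun k => ‖PowerSeries.coeff k Q‖ ^ 2),
    ← Finset.sum_add_distrib, Finset.mul_sum]
  refine (Complex.re_le_norm _).trans ((norm_sum_le _ _).trans ?_)
  apply Finset.sum_le_sum
  intro k hk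
  have h1 : n + 1 - 1 - k = n - k := by omega
  rw [h1, norm_mul]
  nlinarith [sq_nonneg (‖PowerSeries.coeff k P‖ - ‖PowerSeries.coeff (n - k) Q‖)]

lemma J_bound {C : PowerSeries ℂ} (hC : Contr C) (A B : PowerSeries ℂ) {N1 N2 n : ℕ}
    (h : N1 + N2 = n + 1) :
    (PowerSeries.coeff n (C * (cut N1 A * cut N2 B))).re ≤
      1 / 2 * ((∑ k ∈ range N1, ‖PowerSeries.coeff k A‖ ^ 2
        - ∑ k ∈ range N1, ‖PowerSeries.coeff k (C * A)‖ ^ 2)
        + (∑ k ∈ range N2, ‖PowerSeries.coeff k B‖ ^ 2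
        - ∑ k ∈ range N2, ‖PowerSeries.coeff k (C * B)‖ ^ 2)) := by
  have h' : N2 + N1 = n + 1 := by omega
  have hb := re_coeff_mul_le (C * (cut N1 A + refl N1 n (C * B)))
    (cut N2 B + refl N2 n (C * A)) n
  have hc := hC (cut N1 A + refl N1 n (C * B)) (n + 1)
  rw [norm_mix A (C * B) h] at hc
  rw [norm_mix B (C * A) h'] at hb
  have e : C * (cut N1 A + refl N1 n (C * B)) * (cut N2 B + refl N2 n (C * A))
      = C * (cut N1 A * cut N2 B) + C * cut N1 A * refl N2 n (C * A)
        + C * cut N2 B * refl N1 n (C * B) + C * (refl N1 n (C * B) * refl N2 n (C * A)) := by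
    ring
  rw [e, map_add, map_add, map_add, piece C A h, piece C B h', refl_mul_refl C _ _ h] at hb
  simp only [Complex.add_re, Complex.ofReal_re, Complex.zero_re] at hb
  linarith

lemma count_aux (n i j m : ℕ) (h : m + (i + j) = n) (a b : ℂ) :
    ∑ r ∈ range n, (if i < r + 1 then a else 0) * (if j < n - r then b else 0) = (m : ℂ) * (a * b) := by
  have h1 : ∀ r ∈ range n, (if i < r + 1 then a else 0) * (if j < n - r then b else 0)
      = if (i ≤ r ∧ r < n - j) then a * b else 0 := by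
    intro r hr
    have hr' : r < n := by simpa using hr
    by_cases h2 : i ≤ r
    · by_cases h3 : r < n - j
      · rw [if_pos (by omega), if_pos (by omega), if_pos ⟨h2, h3⟩]
      · rw [if_neg (show ¬ (j < n - r) by omega), mul_zero, if_neg (by omega)]
    · rw [if_neg (show ¬ (i < r + 1) by omega), zero_mul, if_neg (by omega)]
  rw [Finset.sum_congr rfl h1, ← Finset.sum_filter]
  have h2 : (range n).filter (fun r => i ≤ r ∧ r < n - j) = Finset.Ico i (n - j) := by
    ext r
    simp only [Finset.mem_filter, Finset.mem_range, Finset.mem_Ico]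
    omega
  rw [h2, Finset.sum_const, Nat.card_Ico, nsmul_eq_mul]
  have h3 : n - j - i = m := by omega
  rw [h3]

lemma sum_J (C A B : PowerSeries ℂ) (n : ℕ) :
    ∑ r ∈ range n, PowerSeries.coeff n (C * (cut (r + 1) A * cut (n - r) B))
      = PowerSeries.coeff n (eul C * (A * B)) := by
  simp only [PowerSeries.coeff_mul (φ := C), PowerSeries.coeff_mul (φ := eul C)]
  rw [Finset.sum_comm]
  apply Finset.sum_congr rfl
  intro p hp
  have h1 : p.1 + p.2 = n := by simpa using hp
  rw [← Finset.mul_sum, coeff_eul]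
  have h2 : ∑ r ∈ range n, PowerSeries.coeff p.2 (cut (r + 1) A * cut (n - r) B)
      = (p.1 : ℂ) * PowerSeries.coeff p.2 (A * B) := by
    simp only [PowerSeries.coeff_mul]
    rw [Finset.sum_comm, Finset.mul_sum]
    apply Finset.sum_congr rfl
    intro q hq
    have h3 : q.1 + q.2 = p.2 := by simpa using hq
    simp only [cut, PowerSeries.coeff_mk]
    exact count_aux n q.1 q.2 p.1 (by omega) _ _
  rw [h2]
  ring

/-- the weighted norm -/
noncomputable def W (n : ℕ) (P : PowerSeries ℂ) : ℝ :=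
  ∑ k ∈ range n, ((n : ℝ) - k) * ‖PowerSeries.coeff k P‖ ^ 2

lemma sum_sum_range (u : ℕ → ℝ) (n : ℕ) :
    ∑ r ∈ range n, ∑ k ∈ range (r + 1), u k = ∑ k ∈ range n, ((n : ℝ) - k) * u k := by
  induction n with
  | zero => simp
  | succ n ih =>
    rw [Finset.sum_range_succ, ih, Finset.sum_range_succ (fun k => (((n + 1 : ℕ) : ℝ) - k) * u k),
      Finset.sum_range_succ u n]
    have : ∑ k ∈ range n, (((n + 1 : ℕ) : ℝ) - k) * u k
        = ∑ k ∈ range n, ((n : ℝ) - k) * u k + ∑ k ∈ range n, u k := by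
      rw [← Finset.sum_add_distrib]
      apply Finset.sum_congr rfl
      intro k _
      push_cast
      ring
    rw [this]
    push_cast
    ring

lemma W_eq (n : ℕ) (P : PowerSeries ℂ) :
    W n P = ∑ r ∈ range n, ∑ k ∈ range (r + 1), ‖PowerSeries.coeff k P‖ ^ 2 :=
  (sum_sum_range _ n).symm

lemma W_eq' (n : ℕ) (P : PowerSeries ℂ) :
    W n P = ∑ r ∈ range n, ∑ k ∈ range (n - r), ‖PowerSeries.coeff k P‖ ^ 2 := by
  rw [W_eq, ← Finset.sum_range_reflect]
  apply Finset.sum_congr rfl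
  intro r hr
  have hr' : r < n := by simpa using hr
  have : n - 1 - r + 1 = n - r := by omega
  rw [this]

lemma W_nonneg (n : ℕ) (P : PowerSeries ℂ) : 0 ≤ W n P := by
  rw [W_eq]
  positivity

lemma W_mul_le {C : PowerSeries ℂ} (hC : Contr C) (n : ℕ) (P : PowerSeries ℂ) :
    W n (C * P) ≤ W n P := by
  rw [W_eq, W_eq]
  apply Finset.sum_le_sum
  intro r _
  exact hC P (r + 1)

lemma KL_re {C : PowerSeries ℂ} (hC : Contr C) (A B : PowerSeries ℂ) (n : ℕ) :
    (PowerSeries.coeff n (eul C * (A * B))).re ≤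
      1 / 2 * ((W n A - W n (C * A)) + (W n B - W n (C * B))) := by
  rw [← sum_J, Complex.re_sum, W_eq n A, W_eq n (C * A), W_eq' n B, W_eq' n (C * B),
    ← Finset.sum_sub_distrib, ← Finset.sum_sub_distrib, ← Finset.sum_add_distrib, Finset.mul_sum]
  apply Finset.sum_le_sum
  intro r hr
  have hr' : r < n := by simpa using hr
  exact J_bound hC A B (by omega)

lemma exists_rot (z : ℂ) : ∃ u : ℂ, ‖u‖ = 1 ∧ (u * z).re = ‖z‖ := by
  by_cases hz : z = 0
  · exact ⟨1, by simp, by simp [hz]⟩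
  · have hn : ‖z‖ ≠ 0 := norm_ne_zero_iff.mpr hz
    refine ⟨(starRingEnd ℂ) z / (‖z‖ : ℂ), ?_, ?_⟩
    · rw [norm_div, Complex.norm_conj, Complex.norm_real, norm_norm, div_self hn]
    · have h1 : (starRingEnd ℂ) z / (‖z‖ : ℂ) * z = ((‖z‖ : ℝ) : ℂ) := by
        have hn' : (‖z‖ : ℂ) ≠ 0 := by exact_mod_cast hn
        rw [div_mul_eq_mul_div, Complex.conj_mul']
        field_simp
      rw [h1, Complex.ofReal_re]

lemma W_C_mul (n : ℕ) (u : ℂ) (hu : ‖u‖ = 1) (P : PowerSeries ℂ) :
    W n (PowerSeries.C u * P) = W n P := by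
  unfold W
  apply Finset.sum_congr rfl
  intro k _
  rw [PowerSeries.coeff_C_mul, norm_mul, hu, one_mul]

/-- the key inequality (integrated Schwarz-Pick) -/
lemma KL {C : PowerSeries ℂ} (hC : Contr C) (A B : PowerSeries ℂ) (n : ℕ) :
    ‖PowerSeries.coeff n (eul C * (A * B))‖ ≤
      1 / 2 * ((W n A - W n (C * A)) + (W n B - W n (C * B))) := by
  obtain ⟨u, hu, hz⟩ := exists_rot (PowerSeries.coeff n (eul C * (A * B)))
  have h := KL_re hC A (PowerSeries.C u * B) n
  have e1 : eul C * (A * (PowerSeries.C u * B)) = PowerSeries.C u * (eul C * (A * B)) := by ring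
  have e2 : C * (PowerSeries.C u * B) = PowerSeries.C u * (C * B) := by ring
  rw [e1, e2, PowerSeries.coeff_C_mul, hz, W_C_mul n u hu, W_C_mul n u hu] at h
  exact h

end Pool.Agent.X216.LC
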