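import Pool.Agent.X216.LC.Main

open Finset Filter Topology Metric

namespace Pool.Agent.X216.LC

open Pool.Agent.X216.BH

lemma isPS_zero {a : ℕ → ℂ} {f : ℂ → ℂ} (h : IsPS a f) : f 0 = a 0 := by
  have h1 := h 0 (by simp)
  have h2 := hasSum_single (f := fun n : ℕ => a n * (0 : ℂ) ^ n) 0 (by
    intro n hn
    simp [hn])
  have h3 := h1.unique h2
  simpa using h3

lemma isPS_euler {l : ℕ → ℂ} {L : ℂ → ℂ} (h : IsPS l L) :
    IsPS (fun n => (n : ℂ) * l n) (fun z => z * deriv L z) := by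
  intro z hz
  have h1 := (h.deriv z hz).mul_left z
  rw [← hasSum_nat_add_iff' 1]
  simp only [Finset.sum_range_one, Nat.cast_zero, zero_mul, sub_zero]
  refine h1.congr_fun ?_
  intro n
  push_cast
  ring

/-- Logarithmic coefficient bound in terms of the power series of the logarithm. -/
lemma log_bound {f ω L : ℂ → ℂ} {l : ℕ → ℂ} (hωd : DifferentiableOn ℂ ω (ball (0 : ℂ) 1))
    (hω0 : ω 0 = 0) (hω1 : ∀ z : ℂ, ‖z‖ < 1 → ‖ω z‖ < 1)
    (hf : ∀ z : ℂ, ‖z‖ < 1 → z ≠ 0 → f z ≠ 0 ∧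
      z * deriv f z / f z = ω z + Complex.cosh (ω z))
    (hL : IsPS l L) (hfL : ∀ z : ℂ, ‖z‖ < 1 → f z = z * Complex.exp (L z))
    {n : ℕ} (hn : 1 ≤ n) : ‖(n : ℂ) * l n‖ ≤ 1 := by
  have hder : ∀ z : ℂ, ‖z‖ < 1 →
      deriv f z = Complex.exp (L z) + z * (Complex.exp (L z) * deriv L z) := by
    intro z hz
    have hzb : z ∈ ball (0 : ℂ) 1 := by simpa using hz
    have hev : f =ᶠ[𝓝 z] fun w => w * Complex.exp (L w) := by
      filter_upwards [isOpen_ball.mem_nhds hzb] with w hw
      exact hfL w (by simpa using hw)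
    rw [hev.deriv_eq]
    have hLd : HasDerivAt L (deriv L z) z :=
      ((hL.diff z hzb).differentiableAt (isOpen_ball.mem_nhds hzb)).hasDerivAt
    have := ((hasDerivAt_id z).mul hLd.cexp).deriv
    simp only [id, one_mul] at this
    exact this
  have hkey : ∀ z : ℂ, ‖z‖ < 1 → z * deriv L z = ω z + Complex.cosh (ω z) - 1 := by
    intro z hz
    by_cases hz0 : z = 0
    · subst hz0
      rw [hω0]
      simp
    · obtain ⟨hne, he⟩ := hf z hz hz0
      rw [← he, hder z hz, hfL z hz]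
      have hexp : Complex.exp (L z) ≠ 0 := Complex.exp_ne_zero _
      field_simp
      ring
  obtain ⟨c, hc⟩ : ∃ c, IsPS c ω := ⟨_, exists_isPS hωd⟩
  have hC : IsPS (fun n => PowerSeries.coeff n (PowerSeries.mk c)) ω := by
    simpa only [PowerSeries.coeff_mk] using hc
  have h0 : PowerSeries.coeff 0 (PowerSeries.mk c) = 0 := by
    rw [PowerSeries.coeff_mk, ← isPS_zero hc, hω0]
  have hq : IsPS (fun n => (n : ℂ) * l n) (fun z => ω z + Complex.cosh (ω z) - 1) := by
    intro z hz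
    have := isPS_euler hL z hz
    simp only at this ⊢
    rwa [hkey z hz] at this
  exact coeff_bound hC h0 hω1 hq hn

/-- Existence of the logarithm. -/
lemma exists_log {f ω : ℂ → ℂ} (hfd : DifferentiableOn ℂ f (ball (0 : ℂ) 1))
    (hf0 : f 0 = 0) (hf1 : deriv f 0 = 1) (hωd : DifferentiableOn ℂ ω (ball (0 : ℂ) 1))
    (hω0 : ω 0 = 0)
    (hf : ∀ z : ℂ, ‖z‖ < 1 → z ≠ 0 → f z ≠ 0 ∧
      z * deriv f z / f z = ω z + Complex.cosh (ω z)) :
    ∃ (l : ℕ → ℂ) (L : ℂ → ℂ), IsPS l L ∧ l 0 = 0 ∧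
      ∀ z : ℂ, ‖z‖ < 1 → f z = z * Complex.exp (L z) := by
  obtain ⟨m, hm⟩ : ∃ m : ℂ → ℂ, m = fun z => ω z + Complex.cosh (ω z) - 1 := ⟨_, rfl⟩
  have hmd : DifferentiableOn ℂ m (ball (0 : ℂ) 1) := by
    rw [hm]
    exact (hωd.add hωd.ccosh).sub_const 1
  obtain ⟨q, hq⟩ : ∃ q, IsPS q m := ⟨_, exists_isPS hmd⟩
  have hq0 : q 0 = 0 := by
    rw [← isPS_zero hq, hm]
    simp [hω0]
  obtain ⟨l, hl⟩ : ∃ l : ℕ → ℂ, l = fun n => q n / (n : ℂ) := ⟨_, rfl⟩
  obtain ⟨L, hLdef⟩ : ∃ L : ℂ → ℂ, L = fun z => ∑' n : ℕ, l n * z ^ n := ⟨_, rfl⟩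
  have hl0 : l 0 = 0 := by rw [hl]; simp
  have hL : IsPS l L := by
    intro z hz
    rw [hLdef]
    have hs : Summable (fun n : ℕ => l n * z ^ n) := by
      apply Summable.of_norm_bounded (hq z hz).summable.norm
      intro n
      rw [norm_mul, norm_mul]
      apply mul_le_mul_of_nonneg_right _ (norm_nonneg _)
      rw [hl]
      simp only
      rw [norm_div, Complex.norm_natCast]
      rcases Nat.eq_zero_or_pos n with h | h
      · subst h
        simp
      · apply div_le_self (norm_nonneg _)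
        exact_mod_cast h
    exact hs.hasSum
  have hLm : ∀ z : ℂ, ‖z‖ < 1 → z * deriv L z = m z := by
    intro z hz
    have h1 := isPS_euler hL z hz
    have h2 := hq z hz
    refine h1.unique (h2.congr_fun ?_)
    intro n
    rw [hl]
    simp only
    rcases Nat.eq_zero_or_pos n with h | h
    · subst h
      simp [hq0]
    · have : (n : ℂ) ≠ 0 := by exact_mod_cast (by omega : n ≠ 0)
      field_simp
  have hL0 : L 0 = 0 := by rw [isPS_zero hL, hl0]
  obtain ⟨h, hh⟩ : ∃ h : ℂ → ℂ, h = fun z => f z * Complex.exp (-L z) := ⟨_, rfl⟩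
  have hhd : DifferentiableOn ℂ h (ball (0 : ℂ) 1) := by
    rw [hh]
    exact hfd.mul hL.diff.neg.cexp
  have hder : ∀ z : ℂ, ‖z‖ < 1 →
      deriv h z = deriv f z * Complex.exp (-L z)
        + f z * (Complex.exp (-L z) * (-deriv L z)) := by
    intro z hz
    have hzb : z ∈ ball (0 : ℂ) 1 := by simpa using hz
    have hLd : HasDerivAt L (deriv L z) z :=
      ((hL.diff z hzb).differentiableAt (isOpen_ball.mem_nhds hzb)).hasDerivAt
    have hfd' : HasDerivAt f (deriv f z) z :=
      ((hfd z hzb).differentiableAt (isOpen_ball.mem_nhds hzb)).hasDerivAt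
    rw [hh]
    exact (hfd'.mul hLd.neg.cexp).deriv
  have hzh : ∀ z : ℂ, ‖z‖ < 1 → z * deriv h z = h z := by
    intro z hz
    by_cases hz0 : z = 0
    · subst hz0
      rw [hh]
      simp [hf0]
    · obtain ⟨hne, he⟩ := hf z hz hz0
      have h1 : z * deriv f z = f z * (1 + m z) := by
        rw [div_eq_iff hne] at he
        rw [he, hm]
        ring
      have h2 := hLm z hz
      rw [hder z hz]
      calc z * (deriv f z * Complex.exp (-L z) + f z * (Complex.exp (-L z) * (-deriv L z)))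
          = (z * deriv f z) * Complex.exp (-L z)
            - f z * Complex.exp (-L z) * (z * deriv L z) := by ring
        _ = f z * Complex.exp (-L z) := by rw [h1, h2]; ring
        _ = h z := by rw [hh]
  obtain ⟨e, he⟩ : ∃ e, IsPS e h := ⟨_, exists_isPS hhd⟩
  have he2 : IsPS (fun n => (n : ℂ) * e n) h := by
    intro z hz
    have := isPS_euler he z hz
    simp only at this ⊢
    rwa [hzh z hz] at this
  have heq := he.unique he2
  have hen : ∀ n : ℕ, n ≠ 1 → e n = 0 := by
    intro n hn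
    have h1 := congrFun heq n
    change e n = (n : ℂ) * e n at h1
    have h2 : ((n : ℂ) - 1) * e n = 0 := by
      rw [sub_mul, one_mul, ← h1, sub_self]
    rcases mul_eq_zero.mp h2 with h3 | h3
    · exfalso
      apply hn
      have : (n : ℂ) = 1 := sub_eq_zero.mp h3
      exact_mod_cast this
    · exact h3
  have he1 : e 1 = 1 := by
    have h1 := isPS_zero he.deriv
    simp only [Nat.cast_zero, zero_add, one_mul] at h1
    rw [← h1, hder 0 (by simp), hf0, hf1, hL0]
    simp
  refine ⟨l, L, hL, hl0, ?_⟩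
  intro z hz
  have h1 := he z hz
  have h2 := hasSum_single (f := fun n : ℕ => e n * z ^ n) 1 (by
    intro n hn
    rw [hen n hn, zero_mul])
  have h3 := h1.unique h2
  rw [he1, pow_one, one_mul] at h3
  rw [hh] at h3
  simp only at h3
  have h4 : Complex.exp (-L z) * Complex.exp (L z) = 1 := by
    rw [← Complex.exp_add]
    simp
  calc f z = f z * (Complex.exp (-L z) * Complex.exp (L z)) := by rw [h4, mul_one]
    _ = (f z * Complex.exp (-L z)) * Complex.exp (L z) := by ring
    _ = z * Complex.exp (L z) := by rw [h3]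

end Pool.Agent.X216.LC
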