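import Pool.Agent.X216.LC.Cert

open Finset Filter Topology Metric PowerSeries

namespace Pool.Agent.X216.LC

open Pool.Agent.X216.BH

/-- coefficients of `w + cosh w - 1` -/
noncomputable def psi (k : ℕ) : ℂ :=
  (1 + (-1) ^ k) / (2 * (k.factorial : ℂ)) + (if k = 1 then 1 else 0) - (if k = 0 then 1 else 0)

lemma hasSum_pow_ite (j : ℕ) (w : ℂ) : HasSum (fun k : ℕ => (if k = j then (1 : ℂ) else 0) * w ^ k) (w ^ j) := by
  have h := hasSum_single (f := fun k : ℕ => (if k = j then (1 : ℂ) else 0) * w ^ k) j (by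
    intro k hk
    simp [hk])
  simpa using h

lemma hasSum_psi (w : ℂ) : HasSum (fun k => psi k * w ^ k) (w + Complex.cosh w - 1) := by
  have h1 : HasSum (fun k : ℕ => w ^ k / (k.factorial : ℂ)) (Complex.exp w) := by
    rw [Complex.exp_eq_exp_ℂ]
    exact NormedSpace.expSeries_div_hasSum_exp w
  have h2 : HasSum (fun k : ℕ => (-w) ^ k / (k.factorial : ℂ)) (Complex.exp (-w)) := by
    rw [Complex.exp_eq_exp_ℂ]
    exact NormedSpace.expSeries_div_hasSum_exp (-w)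
  have h3 := ((h1.add h2).div_const 2).add (hasSum_pow_ite 1 w)
  have h4 := h3.sub (hasSum_pow_ite 0 w)
  have e1 : (Complex.exp w + Complex.exp (-w)) / 2 + w ^ 1 - w ^ 0 = w + Complex.cosh w - 1 := by
    rw [Complex.cosh]
    ring
  rw [e1] at h4
  refine h4.congr_fun ?_
  intro k
  unfold psi
  have hf : (k.factorial : ℂ) ≠ 0 := by exact_mod_cast k.factorial_ne_zero
  rw [neg_pow w k]
  field_simp
  try ring

/-- coefficients of `1 + sinh w` -/
noncomputable def dpsi (k : ℕ) : ℂ := ((k : ℂ) + 1) * psi (k + 1)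

lemma psi_zero : psi 0 = 0 := by
  simp [psi]

lemma dpsi_vals : dpsi 0 = 1 ∧ dpsi 1 = 1 ∧ dpsi 2 = 0 ∧ dpsi 3 = 1 / 6 ∧ dpsi 4 = 0 ∧
    dpsi 5 = 1 / 120 ∧ dpsi 6 = 0 := by
  refine ⟨?_, ?_, ?_, ?_, ?_, ?_, ?_⟩ <;> (unfold dpsi psi; norm_num [Nat.factorial])

lemma fact_lower (k : ℕ) : 5040 * 8 ^ k ≤ (k + 7).factorial := by
  induction k with
  | zero => decide
  | succ k ih =>
    have : (k + 1 + 7).factorial = (k + 8) * (k + 7).factorial := by
      rw [show k + 1 + 7 = (k + 7) + 1 by omega, Nat.factorial_succ]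
    rw [this, pow_succ]
    nlinarith

lemma dpsi_bound (k : ℕ) : ‖dpsi (7 + k)‖ ≤ 1 / 5040 * (1 / 8) ^ k := by
  have h1 : dpsi (7 + k) = (1 + (-1) ^ (k + 8)) / (2 * ((k + 7).factorial : ℂ)) := by
    unfold dpsi psi
    rw [if_neg (by omega), if_neg (by omega), show 7 + k + 1 = (k + 7) + 1 by ring,
      Nat.factorial_succ]
    have hf : ((k + 7).factorial : ℂ) ≠ 0 := by exact_mod_cast (k + 7).factorial_ne_zero
    have hk : ((k : ℂ) + 8) ≠ 0 := by exact_mod_cast (show k + 8 ≠ 0 by omega)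
    have e : (((7 + k : ℕ) : ℂ) + 1) = (k : ℂ) + 8 := by push_cast; ring
    have e2 : (((k + 7 + 1 : ℕ)) : ℂ) = (k : ℂ) + 8 := by push_cast; ring
    rw [Nat.cast_mul, e, e2]
    field_simp
    try ring
  rw [h1, norm_div, norm_mul, Complex.norm_natCast]
  have h2 : ‖(1 : ℂ) + (-1) ^ (k + 8)‖ ≤ 2 := by
    refine (norm_add_le _ _).trans ?_
    rw [norm_pow, norm_neg, norm_one, one_pow]
    norm_num
  have h3 : (5040 * 8 ^ k : ℝ) ≤ ((k + 7).factorial : ℝ) := by exact_mod_cast fact_lower k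
  have h4 : (0 : ℝ) < 5040 * 8 ^ k := by positivity
  have h5 : (0 : ℝ) < ((k + 7).factorial : ℝ) := by positivity
  rw [show ‖(2 : ℂ)‖ = 2 by simp]
  calc ‖(1 : ℂ) + (-1) ^ (k + 8)‖ / (2 * ((k + 7).factorial : ℝ))
      ≤ 2 / (2 * ((k + 7).factorial : ℝ)) := by gcongr
    _ = 1 / ((k + 7).factorial : ℝ) := by field_simp
    _ ≤ 1 / (5040 * 8 ^ k) := one_div_le_one_div_of_le h4 h3
    _ = 1 / 5040 * (1 / 8) ^ k := by
        rw [one_div_pow]
        field_simp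

lemma geo_bound (n : ℕ) : ∑ k ∈ range n, (1 / 5040 * (1 / 8 : ℝ) ^ k) ≤ 1 / 4000 := by
  have h : ∀ n : ℕ, ∑ k ∈ range n, (1 / 5040 * (1 / 8 : ℝ) ^ k)
      = 1 / 4410 * (1 - (1 / 8) ^ n) := by
    intro n
    induction n with
    | zero => simp
    | succ n ih =>
      rw [Finset.sum_range_succ, ih, pow_succ]
      ring
  rw [h]
  have : (0 : ℝ) ≤ (1 / 8) ^ n := by positivity
  nlinarith

lemma isPS_pow {C : PowerSeries ℂ} {ω : ℂ → ℂ} (h : IsPS (fun n => PowerSeries.coeff n C) ω)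
    (i : ℕ) : IsPS (fun n => PowerSeries.coeff n (C ^ i)) (fun z => ω z ^ i) := by
  induction i with
  | zero =>
    intro z _
    have := hasSum_pow_ite 0 z
    simpa [PowerSeries.coeff_one] using this
  | succ i ih =>
    have hm := ih.mul h
    intro z hz
    have := hm z hz
    simp only [pow_succ, PowerSeries.coeff_mul]
    exact this

lemma isPS_sum {ι : Type*} (s : Finset ι) (c : ι → ℂ) (a : ι → ℕ → ℂ) (f : ι → ℂ → ℂ)
    (h : ∀ i ∈ s, IsPS (a i) (f i)) :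
    IsPS (fun n => ∑ i ∈ s, c i * a i n) (fun z => ∑ i ∈ s, c i * f i z) := by
  intro z hz
  have h1 : HasSum (fun n => ∑ i ∈ s, c i * (a i n * z ^ n)) (∑ i ∈ s, c i * f i z) :=
    hasSum_sum fun i hi => (h i hi z hz).mul_left (c i)
  refine h1.congr_fun ?_
  intro n
  rw [Finset.sum_mul]
  apply Finset.sum_congr rfl
  intro i _
  ring

lemma coeff_pow_eq_zero {C : PowerSeries ℂ} (h0 : PowerSeries.coeff 0 C = 0) {m i : ℕ}
    (h : m < i) : PowerSeries.coeff m (C ^ i) = 0 := by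
  have h1 : (PowerSeries.X : PowerSeries ℂ) ∣ C := by
    rw [PowerSeries.X_dvd_iff]
    rwa [PowerSeries.coeff_zero_eq_constantCoeff_apply] at h0
  have h2 := pow_dvd_pow_of_dvd h1 i
  rw [PowerSeries.X_pow_dvd_iff] at h2
  exact h2 m h

lemma coeff_comp {C : PowerSeries ℂ} {ω : ℂ → ℂ} (hC : IsPS (fun n => PowerSeries.coeff n C) ω)
    (h0 : PowerSeries.coeff 0 C = 0) (h1 : ∀ z : ℂ, ‖z‖ < 1 → ‖ω z‖ < 1) {q : ℕ → ℂ}
    (hq : IsPS q (fun z => ω z + Complex.cosh (ω z) - 1)) (n : ℕ) :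
    q n = ∑ i ∈ range (n + 1), psi i * PowerSeries.coeff n (C ^ i) := by
  have hs := isPS_sum (range (n + 1)) psi (fun i m => PowerSeries.coeff m (C ^ i))
    (fun i z => ω z ^ i) (fun i _ => isPS_pow hC i)
  obtain ⟨h, hh⟩ : ∃ h : ℕ → ℂ, h = fun m =>
      q m - ∑ i ∈ range (n + 1), psi i * PowerSeries.coeff m (C ^ i) := ⟨_, rfl⟩
  have hh' : IsPS h (fun z => (ω z + Complex.cosh (ω z) - 1)
      - ∑ i ∈ range (n + 1), psi i * ω z ^ i) := by
    intro z hz
    have := (hq z hz).sub (hs z hz)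
    rw [hh]
    refine this.congr_fun ?_
    intro m
    ring
  have hsum : Summable (fun k : ℕ => ‖psi (k + (n + 1))‖) := by
    have := (hasSum_psi 1).summable.norm
    simp only [one_pow, mul_one] at this
    exact (summable_nat_add_iff (n + 1)).mpr this
  obtain ⟨K, hK⟩ : ∃ K : ℝ, K = ∑' k : ℕ, ‖psi (k + (n + 1))‖ := ⟨_, rfl⟩
  have hK0 : 0 ≤ K := by
    rw [hK]
    exact tsum_nonneg fun _ => norm_nonneg _
  have hF : IsPS (fun m => (K : ℂ) * PowerSeries.coeff m (C ^ (n + 1)))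
      (fun z => (K : ℂ) * ω z ^ (n + 1)) := by
    intro z hz
    have := (isPS_pow hC (n + 1) z hz).mul_left (K : ℂ)
    refine this.congr_fun ?_
    intro m
    ring
  have hmaj : ∀ z : ℂ, ‖z‖ < 1 → ‖(ω z + Complex.cosh (ω z) - 1)
      - ∑ i ∈ range (n + 1), psi i * ω z ^ i‖ ≤ ‖(K : ℂ) * ω z ^ (n + 1)‖ := by
    intro z hz
    have hw := h1 z hz
    have ht := (hasSum_nat_add_iff' (n + 1)).mpr (hasSum_psi (ω z))
    have hg : HasSum (fun k : ℕ => ‖psi (k + (n + 1))‖ * ‖ω z‖ ^ (n + 1)) (K * ‖ω z‖ ^ (n + 1)) := by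
      rw [hK]
      exact hsum.hasSum.mul_right _
    rw [norm_mul, norm_pow, Complex.norm_real, Real.norm_of_nonneg hK0]
    refine ht.norm_le_of_bounded hg ?_
    intro k
    rw [norm_mul, norm_pow, pow_add]
    have : ‖ω z‖ ^ k ≤ 1 := pow_le_one₀ (norm_nonneg _) hw.le
    have h2 : 0 ≤ ‖psi (k + (n + 1))‖ * ‖ω z‖ ^ (n + 1) := by positivity
    nlinarith
  have hr := rogosinski hF hh' hmaj (n + 1)
  have hz0 : ∑ m ∈ range (n + 1), ‖(K : ℂ) * PowerSeries.coeff m (C ^ (n + 1))‖ ^ 2 = 0 := by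
    apply Finset.sum_eq_zero
    intro m hm
    have hm' : m < n + 1 := by simpa using hm
    rw [coeff_pow_eq_zero h0 hm']
    simp
  rw [hz0] at hr
  have h3 : ‖h n‖ ^ 2 ≤ 0 := (Finset.single_le_sum (f := fun m => ‖h m‖ ^ 2)
    (fun _ _ => by positivity) (Finset.mem_range.mpr (Nat.lt_succ_self n))).trans hr
  have h4 : ‖h n‖ = 0 := by
    have : 0 ≤ ‖h n‖ := norm_nonneg _
    nlinarith
  have h5 : h n = 0 := norm_eq_zero.mp h4
  rw [hh] at h5
  exact sub_eq_zero.mp h5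

lemma yy_eq_zero {C : PowerSeries ℂ} (h0 : PowerSeries.coeff 0 C = 0) {n k : ℕ} (h : n ≤ k) :
    yy n C k = 0 := by
  have h1 : (PowerSeries.X : PowerSeries ℂ) ∣ C := by
    rw [PowerSeries.X_dvd_iff]
    rwa [PowerSeries.coeff_zero_eq_constantCoeff_apply] at h0
  have h2 : (PowerSeries.X : PowerSeries ℂ) ∣ eul C := by
    rw [PowerSeries.X_dvd_iff, ← PowerSeries.coeff_zero_eq_constantCoeff_apply, coeff_eul]
    simp
  have h3 : (PowerSeries.X : PowerSeries ℂ) ^ (k + 1) ∣ eul C * C ^ k := by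
    rw [pow_succ']
    exact mul_dvd_mul h2 (pow_dvd_pow_of_dvd h1 k)
  rw [PowerSeries.X_pow_dvd_iff] at h3
  exact h3 n (by omega)

lemma coeff_pow_succ (C : PowerSeries ℂ) (n k : ℕ) :
    (n : ℂ) * PowerSeries.coeff n (C ^ (k + 1)) = ((k : ℂ) + 1) * yy n C k := by
  rw [← coeff_eul, eul_pow, map_nsmul, nsmul_eq_mul]
  unfold yy
  push_cast
  ring

lemma coeff_bound {C : PowerSeries ℂ} {ω : ℂ → ℂ} (hC : IsPS (fun n => PowerSeries.coeff n C) ω)
    (h0 : PowerSeries.coeff 0 C = 0) (h1 : ∀ z : ℂ, ‖z‖ < 1 → ‖ω z‖ < 1) {q : ℕ → ℂ}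
    (hq : IsPS q (fun z => ω z + Complex.cosh (ω z) - 1)) {n : ℕ} (hn : 1 ≤ n) :
    ‖q n‖ ≤ 1 := by
  have hCo : Contr C := contr_of_isPS hC (fun z hz => (h1 z hz).le)
  have e1 : (n : ℂ) * q n = ∑ k ∈ range n, dpsi k * yy n C k := by
    rw [coeff_comp hC h0 h1 hq n, Finset.sum_range_succ', psi_zero, zero_mul, add_zero,
      Finset.mul_sum]
    apply Finset.sum_congr rfl
    intro k _
    have := coeff_pow_succ C n k
    unfold dpsi
    calc (n : ℂ) * (psi (k + 1) * PowerSeries.coeff n (C ^ (k + 1)))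
        = psi (k + 1) * ((n : ℂ) * PowerSeries.coeff n (C ^ (k + 1))) := by ring
      _ = psi (k + 1) * (((k : ℂ) + 1) * yy n C k) := by rw [this]
      _ = _ := by ring
  have e2 : ∑ k ∈ range n, dpsi k * yy n C k = ∑ k ∈ range (7 + n), dpsi k * yy n C k := by
    rw [show 7 + n = n + 7 by ring, Finset.sum_range_add]
    rw [Finset.sum_eq_zero (s := range 7), add_zero]
    intro x _
    rw [yy_eq_zero h0 (by omega), mul_zero]
  obtain ⟨d0, d1, d2, d3, d4, d5, d6⟩ := dpsi_vals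
  have e3 : ∑ k ∈ range 7, dpsi k * yy n C k
      = yy n C 0 + yy n C 1 + (1 / 6) * yy n C 3 + (1 / 120) * yy n C 5 := by
    simp only [Finset.sum_range_succ, Finset.sum_range_zero, d0, d1, d2, d3, d4, d5, d6]
    ring
  have e4 : ‖∑ x ∈ range n, dpsi (7 + x) * yy n C (7 + x)‖ ≤ 1 / 4000 * W n C := by
    refine (norm_sum_le _ _).trans ?_
    refine le_trans ?_ (mul_le_mul_of_nonneg_right (geo_bound n) (W_nonneg n C))
    rw [Finset.sum_mul]
    apply Finset.sum_le_sum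
    intro x _
    rw [norm_mul]
    have hy : ‖yy n C (7 + x)‖ ≤ W n C := by
      rw [show 7 + x = (5 + x) + 2 by ring]
      exact yy_bound hCo n (5 + x)
    exact mul_le_mul (dpsi_bound x) hy (norm_nonneg _) (by positivity)
  have hm := main_fin hCo h0 hn
  have e5 : ‖(n : ℂ) * q n‖ ≤ n := by
    rw [e1, e2, Finset.sum_range_add, e3]
    refine (norm_add_le _ _).trans ?_
    linarith
  rw [norm_mul, Complex.norm_natCast] at e5
  have hn' : (0 : ℝ) < n := by exact_mod_cast hn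
  by_contra hc
  push Not at hc
  nlinarith

end Pool.Agent.X216.LC
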